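import Pool.Agent.H86.SG.One

/-! # MP_2429c0_al: reduction of the weak elementary type conjecture to a statement on splitting
graphs and a connected case

The splitting graph of a field `F` has the square classes `x ≠ 1` as vertices, and two of them are
adjacent if the quaternion algebra `(x,y)` is split. The graph is narrow if all its components have
diameter at most two, or if `-1` is a square, all components have diameter at most three and all but
at most one have diameter at most two.

Theorem. The weak elementary type conjecture for the fields which contain a square root of `-1` is
equivalent to the conjunction of the following two statements on these fields.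
(a) The splitting graph is narrow, or it has a component with more than one vertex and diameter at
most two.
(b) If the vertices which are not isolated have distances at most three and are, with `1`, at least
half of all square classes, then the field is of elementary type. -/

set_option autoImplicit false

namespace Pool.Agent.Results.MP_2429c0_al.GraphReduction

open Pool.Agent.H86.SG

/-- the weak elementary type conjecture for the fields which contain a square root of `-1` -/
def Conjecture : Prop :=
  ∀ (F : Type) [Field F], Finitary F → IsSquare (-1 : F) → ElementaryType F

/-- the splitting graphs of the fields which contain a square root of `-1` are narrow, or have a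
component with more than one vertex and diameter at most two -/
def GraphStatement : Prop :=
  ∀ (F : Type) [Field F], Finitary F → IsSquare (-1 : F) → NarrowGraph F ∨ OneNarrow F

/-- the conjecture for the fields which contain a square root of `-1`, in which the vertices which
are not isolated have distances at most three and are, with `1`, at least half of all classes -/
def ConnectedCase : Prop :=
  ∀ (F : Type) [Field F], Finitary F → IsSquare (-1 : F) → ShortDistances F →
    Nat.card (Cl F) ≤ 2 * Nat.card {x : Cl F // ¬ Isolated x} → ElementaryType F

theorem result : Conjecture ↔ GraphStatement ∧ ConnectedCase := by
  constructor
  · intro h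
    obtain ⟨h1, h3⟩ := reduction.1 fun F _ h2 hfin hsq => h F ⟨h2, hfin⟩ hsq
    exact ⟨fun F _ hF hsq => Or.inl (h1 F hF.1 hF.2 hsq), fun F _ hF hsq hd hc =>
      h3 F hF.1 hF.2 hsq hd hc⟩
  · rintro ⟨h1, h3⟩ F _ hF hsq
    exact reduction.2 ⟨fun F _ h2 hfin hsq =>
        (h1 F ⟨h2, hfin⟩ hsq).elim id (narrow_of_one ⟨h2, hfin⟩),
      fun F _ h2 hfin hsq hd hc => h3 F ⟨h2, hfin⟩ hsq hd hc⟩ F hF.1 hF.2 hsq

end Pool.Agent.Results.MP_2429c0_al.GraphReduction
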