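import Pool.Agent.H86.SG.Crit

/-! # MP_2429c0_al: one norm-closed group of square classes is enough

The splitting graph of a field `F` of characteristic `≠ 2` has the square classes `x ≠ 1` as
vertices, and two of them are adjacent if the quaternion algebra `(x,y)` is split.

Theorem. Let `F` have finitely many square classes, let `H` be a group of square classes with
`-1 ∈ H`, and let `a ∈ H`, `a ≠ 1, -1`. `F` is an iterated group extension over `H` (all vertices
outside of `H` are isolated up to sign) if and only if `H` contains the neighbours of all its
vertices and
- `a` is not isolated, and `-1` is a square or each vertex `x ≠ -1` of `H` which is adjacent only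
  to `-x` is isolated, or
- no vertex outside of `H` has more neighbours than `a`, or
- the index of `H` is at most the number of the classes in the norm group of `a`.

Thus, if `-1` is a square, then a group of square classes which contains the neighbours of its
vertices either has only isolated vertices, or contains all vertices which are not isolated.

In this case `F` is of elementary type if and only if a structure of the order of `H` is, in
particular if `H` has at most `16` elements, and `F` has a `2`-henselian valuation if the index of
`H` is greater than two. -/

set_option autoImplicit false

namespace Pool.Agent.Results.MP_2429c0_al.NormClosedSubgroups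

open Pool.Agent.H86.SG

theorem result (F : Type) [Field F] (hF : Finitary F) (H : Subgroup (Cl F)) (hn : mone F ∈ H)
    (a : Cl F) (ha : a ∈ H) (h1 : a ≠ 1) (h2 : a ≠ mone F) :
    (Criterion H a ↔ ExtensionOf H) ∧
    (Criterion H a → (Nat.card H ≤ 16 → ElementaryType F) ∧
      (2 < H.index → HenselianVal F (2 * Nat.card H))) := by
  have key : Criterion H a ↔ ExtensionOf H := criterion_extension hF H hn ha h1 h2
  exact ⟨key, fun h => ⟨extension_small hF H (key.1 h), extension_val hF H (key.1 h)⟩⟩

end Pool.Agent.Results.MP_2429c0_al.NormClosedSubgroups
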