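import Pool.Agent.H86.SG.Sml

/-! # MP_2429c0_al: fields whose splitting graphs have small or complete components

The splitting graph of a field `F` of characteristic `≠ 2` has the square classes `x ≠ 1` as
vertices, and two of them are adjacent if the quaternion algebra `(x,y)` is split.

Theorem. Let `F` have finitely many square classes. `F` is of elementary type
- if all components of the graph have diameter at most two (or if `-1` is a square, they have
  diameter at most three, all but one at most two), and each of them has, together with the
  classes of `1` and `-1`, at most `16` elements;
- if any two different vertices of a component are adjacent (splitting is transitive);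
- if `-1` is a square and one component with more than one vertex has diameter at most two and at
  most `15` vertices (without any condition on the others).

The number of square classes is arbitrary, and so is `-1` in the first two cases. -/

set_option autoImplicit false

namespace Pool.Agent.Results.MP_2429c0_al.SmallComponents

open Pool.Agent.H86.SG

theorem result (F : Type) [Field F] (hF : Finitary F)
    (h : (NarrowGraph F ∧
        ∀ x : Cl F, (insert 1 (insert (mone F) {y | Conn x y}) : Set (Cl F)).ncard ≤ 16) ∨
      (∀ x y : Cl F, x ≠ 1 → Conn x y → Dist 1 x y) ∨ OneSmall F 15) : ElementaryType F := by
  rcases h with ⟨hN, hc⟩ | hD | hO
  · exact small_components hF.1 hF.2 hN hc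
  · exact complete_components hF.1 hF.2 hD
  · exact one_small hF hO

end Pool.Agent.Results.MP_2429c0_al.SmallComponents
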