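import Pool.Agent.H86.SG.One

/-! # MP_2429c0_al: the splitting graph of a field and group extensions

Let `F` be a field of characteristic `≠ 2` with finitely many square classes. The vertices of the
splitting graph are the square classes `x ≠ 1`; two of them are adjacent if the quaternion algebra
`(x,y)` is split. `x` is isolated if its only neighbour is `-x`, and the only neighbour of `-x` is
`x`.

Call the graph narrow if all its components have diameter at most two, or if `-1` is a square, all
components have diameter at most three and all but at most one have diameter at most two.

Theorem. If the graph is narrow, or if `-1` is a square and some component with more than one vertex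
has diameter at most two, then the classes which are not isolated form a subgroup `B`, all
elements of `B` other than `1`, `-1` are in one component, and the quaternionic structure of `F` is
a `k`-fold group extension of a structure `T` with `|B|` elements; `F` is of elementary type if and
only if `T` is. If `k ≥ 2`, then `F` has a valuation ring `O` whose one-units are squares, with a
residue field of characteristic `≠ 2` with at most `2 |B|` square classes, and the structure of `F`
is an iterated group extension of that of the residue field.
Conversely, if `-1` is a square and `F` is of elementary type, then the graph is narrow.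

The main step: let `a, b, c, d` be a walk in a component such that `ad` lies in another component
`E`. Then, by the linkage axiom, `b` is a product of two elements of `E ∪ {1}`. It follows that in a
narrow graph all components are, with `1`, subgroups. -/

set_option autoImplicit false

namespace Pool.Agent.Results.MP_2429c0_al.SplittingGraph

open Pool.Agent.H315R3.ETC Pool.Agent.TH188.ET Pool.Agent.H86.SG

/-- `B` consists of the classes which are not isolated, and its elements other than `1`, `-1` are
in one component -/
def IsConnectedPart {F : Type} [Field F] (B : Subgroup (Cl F)) : Prop :=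
  (∀ x, x ∈ B ↔ ¬ Isolated x) ∧
    ∀ x ∈ B, ∀ y ∈ B, x ≠ 1 → x ≠ mone F → y ≠ 1 → y ≠ mone F → Conn x y

/-- the structure of `F` is a `k`-fold group extension of the structure `T` of order `|B|`, and `F`
is of elementary type if and only if `T` is -/
def ExtensionOf {F : Type} [Field F] (B : Subgroup (Cl F)) (k : ℕ) (T : QData) : Prop :=
  2 ^ k * Nat.card B = Nat.card (Cl F) ∧ IsQuat T ∧ Nat.card T.G = Nat.card B ∧
    IsStructureOf F (ext^[k] T) ∧ (ElementaryType F ↔ Elem T)

/-- `F` has a valuation ring whose one-units are squares, with a residue field of characteristic
`≠ 2` with at most `m` square classes, such that the structure of `F` is an iterated group extension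
of the structure `R` of the residue field -/
def HasValuation (F : Type) [Field F] (m : ℕ) : Prop :=
  ∃ (O : ValuationSubring F) (j : ℕ) (R : QData), (2 : F)⁻¹ ∈ O ∧
    (∀ x : F, x ∈ O → x⁻¹ ∉ O → IsSquare (1 + x)) ∧
    (2 : IsLocalRing.ResidueField O) ≠ 0 ∧
    (squares (IsLocalRing.ResidueField O)).index ≤ m ∧ 1 ≤ j ∧
    2 ^ j * (squares (IsLocalRing.ResidueField O)).index = (squares F).index ∧
    IsStructureOf (IsLocalRing.ResidueField O) R ∧ IsStructureOf F (ext^[j] R)

theorem result :
    -- narrow graphs, and graphs with one component of diameter at most two
    (∀ (F : Type) [Field F], Finitary F → NarrowGraph F ∨ OneNarrow F →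
      ∃ (B : Subgroup (Cl F)) (k : ℕ) (T : QData), IsConnectedPart B ∧ ExtensionOf B k T ∧
        (2 ≤ k → HasValuation F (2 * Nat.card B))) ∧
    -- the graphs of the fields of elementary type are narrow, if `-1` is a square
    (∀ (F : Type) [Field F], Finitary F → IsSquare (-1 : F) → ElementaryType F →
      NarrowGraph F) := by
  refine ⟨?_, fun F _ hF hsq hE => (elementary_dist hF.1 hF.2 hsq hE).1⟩
  intro F _ hF hNO
  have hN : NarrowGraph F := hNO.elim id (narrow_of_one hF)
  obtain ⟨h2, hfin⟩ := hF
  obtain ⟨B, k, T, h1, h3, h4, h5, h6, h7, h8, -⟩ := decomp' h2 hfin hN
  refine ⟨B, k, T, ⟨h1, h3⟩, ⟨h4, h5, h6, h7, h8⟩, fun hk => ?_⟩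
  refine valuation h2 hfin B h1 ?_
  have hcl : 0 < Nat.card (Cl F) := Nat.pos_of_ne_zero hfin
  have hB : 0 < Nat.card B := by
    rcases Nat.eq_zero_or_pos (Nat.card B) with e | e
    · rw [e, mul_zero] at h4
      omega
    · exact e
  have h2k : 4 ≤ 2 ^ k := by
    calc 4 = 2 ^ 2 := by norm_num
      _ ≤ 2 ^ k := Nat.pow_le_pow_right (by norm_num) hk
  nlinarith

end Pool.Agent.Results.MP_2429c0_al.SplittingGraph
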